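import Pool.Agent.H115R3.Sponge.Wild

/-!
A homeomorphism of `ℝ^n`, `n ≥ 2`, made of shears along the function `wild`.
-/

open Set Filter Topology
open scoped ENNReal

noncomputable section
namespace Pool.Agent.H115R3.Sponge

/-- Euclidean space of dimension `n`. -/
abbrev Sp (n : ℕ) := EuclideanSpace ℝ (Fin n)

/-- The elementary shear `x ↦ x + wild (x j) e_i`. -/
def shear {n : ℕ} (i j : Fin n) (hij : i ≠ j) : Sp n ≃ₜ Sp n where
  toFun x := x + wild (x j) • EuclideanSpace.single i (1 : ℝ)
  invFun x := x - wild (x j) • EuclideanSpace.single i (1 : ℝ)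
  left_inv x := by
    have h : (x + wild (x j) • EuclideanSpace.single i (1 : ℝ)) j = x j := by
      simp [hij.symm]
    simp only [h]
    abel
  right_inv x := by
    have h : (x - wild (x j) • EuclideanSpace.single i (1 : ℝ)) j = x j := by
      simp [hij.symm]
    simp only [h]
    abel
  continuous_toFun := by
    have : Continuous fun x : Sp n => x j := by fun_prop
    exact continuous_id.add ((continuous_wild.comp this).smul continuous_const)
  continuous_invFun := by
    have : Continuous fun x : Sp n => x j := by fun_prop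
    exact continuous_id.sub ((continuous_wild.comp this).smul continuous_const)

lemma shear_apply {n : ℕ} (i j : Fin n) (hij : i ≠ j) (x : Sp n) (k : Fin n) :
    (shear i j hij x) k = x k + if k = i then wild (x j) else 0 := by
  change (x + wild (x j) • EuclideanSpace.single i (1 : ℝ)) k = _
  simp only [PiLp.add_apply, PiLp.smul_apply, PiLp.single_apply, smul_eq_mul]
  split_ifs <;> simp

/-- The composition of the first `k` shears in the chain. -/
def chain (m : ℕ) : ℕ → (Sp (m + 2) ≃ₜ Sp (m + 2))
  | 0 => Homeomorph.refl _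
  | k + 1 => if h : k + 1 < m + 2 then
      (chain m k).trans (shear ⟨k, by omega⟩ ⟨k + 1, h⟩ (by simp [Fin.ext_iff]))
    else chain m k

lemma chain_apply (m k : ℕ) (hk : k ≤ m + 1) (x : Sp (m + 2)) (i : Fin (m + 2)) :
    (chain m k x) i = if h : (i : ℕ) < k then x i + wild (x ⟨i + 1, by omega⟩) else x i := by
  induction k generalizing i with
  | zero => simp [chain]
  | succ k ih =>
    have h1 : k + 1 < m + 2 := by omega
    have h2 : chain m (k + 1) =
        (chain m k).trans (shear ⟨k, by omega⟩ ⟨k + 1, h1⟩ (by simp [Fin.ext_iff])) := by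
      simp only [chain, dif_pos h1]
    rw [h2, Homeomorph.trans_apply, shear_apply, ih (by omega) i, ih (by omega) ⟨k + 1, h1⟩]
    have h3 : ¬ (k + 1 < k) := by omega
    simp only [h3, dif_neg, not_false_iff]
    by_cases hik : (i : ℕ) = k
    · subst hik
      simp
    · have h4 : i ≠ ⟨k, by omega⟩ := fun h => hik (by rw [h])
      rw [if_neg h4, add_zero]
      by_cases h5 : (i : ℕ) < k
      · rw [dif_pos h5, dif_pos (by omega)]
      · rw [dif_neg h5, dif_neg (by omega)]

/-- The homeomorphism of `ℝ^(m+2)`. -/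
def wildHomeo (m : ℕ) : Sp (m + 2) ≃ₜ Sp (m + 2) :=
  (chain m (m + 1)).trans (shear (Fin.last (m + 1)) 0 (by simp [Fin.ext_iff]))

lemma wildHomeo_apply_lt (m : ℕ) (x : Sp (m + 2)) (i : Fin (m + 2)) (hi : (i : ℕ) < m + 1) :
    (wildHomeo m x) i = x i + wild (x ⟨i + 1, by omega⟩) := by
  have h : i ≠ Fin.last (m + 1) := fun h => by simp [h] at hi
  rw [wildHomeo, Homeomorph.trans_apply, shear_apply, if_neg h, add_zero,
    chain_apply m (m + 1) le_rfl, dif_pos hi]

lemma wildHomeo_apply_last (m : ℕ) (x : Sp (m + 2)) :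
    (wildHomeo m x) (Fin.last (m + 1)) =
      x (Fin.last (m + 1)) + wild (x 0 + wild (x 1)) := by
  rw [wildHomeo, Homeomorph.trans_apply, shear_apply, if_pos rfl,
    chain_apply m (m + 1) le_rfl, chain_apply m (m + 1) le_rfl]
  have h1 : ¬ ((Fin.last (m + 1) : Fin (m + 2)) : ℕ) < m + 1 := by simp
  have h2 : ((0 : Fin (m + 2)) : ℕ) < m + 1 := by simp
  rw [dif_neg h1, dif_pos h2]
  rfl

lemma abs_wildHomeo_apply_le (m : ℕ) (x : Sp (m + 2)) (i : Fin (m + 2)) :
    |(wildHomeo m x) i| ≤ |x i| + 2 := by
  rcases lt_or_ge (i : ℕ) (m + 1) with h | h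
  · rw [wildHomeo_apply_lt m x i h]
    exact (abs_add_le _ _).trans (by linarith [abs_wild_le (x ⟨i + 1, by omega⟩)])
  · have hi : i = Fin.last (m + 1) := Fin.ext (by simp; omega)
    subst hi
    rw [wildHomeo_apply_last]
    exact (abs_add_le _ _).trans (by linarith [abs_wild_le (x 0 + wild (x 1))])

/-- A curve whose coordinates have bounded variation before and after `wildHomeo` is constant. -/
theorem const_of_wildHomeo {m : ℕ} {y : unitInterval → Sp (m + 2)} (hy : Continuous y)
    (h1 : ∀ i, eVariationOn (fun t => y t i) univ ≠ ⊤)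
    (h2 : ∀ i, eVariationOn (fun t => (wildHomeo m (y t)) i) univ ≠ ⊤) (s t : unitInterval) :
    y s = y t := by
  have hyi : ∀ i, Continuous fun t => y t i := fun i => by fun_prop
  have hstep : ∀ i : Fin (m + 2), ∀ hi : (i : ℕ) < m + 1,
      ∀ s t, y s ⟨i + 1, by omega⟩ = y t ⟨i + 1, by omega⟩ := by
    intro i hi s t
    refine const_of_wild_comp (x := fun t => y t ⟨i + 1, by omega⟩) (hyi _) ?_ s t
    have hle := eVariationOn_sub_le (fun t => (wildHomeo m (y t)) i) (fun t => y t i) univ
    have heq : (fun t => (wildHomeo m (y t)) i - y t i) =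
        fun t => wild (y t ⟨i + 1, by omega⟩) := by
      funext t
      rw [wildHomeo_apply_lt m (y t) i hi]
      ring
    rw [heq] at hle
    exact ne_top_of_le_ne_top (ENNReal.add_ne_top.mpr ⟨h2 i, h1 i⟩) hle
  have hpos : ∀ i : Fin (m + 2), 0 < (i : ℕ) → ∀ s t, y s i = y t i := by
    intro i hi s t
    have h := hstep ⟨(i : ℕ) - 1, by omega⟩ (by simp; omega) s t
    have e : (⟨((⟨(i : ℕ) - 1, by omega⟩ : Fin (m + 2)) : ℕ) + 1, by simp; omega⟩ : Fin (m + 2))
        = i := Fin.ext (by simp; omega)
    rw [e] at h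
    exact h
  have hzero : ∀ s t, y s 0 + wild (y s 1) = y t 0 + wild (y t 1) := by
    intro s t
    refine const_of_wild_comp (x := fun t => y t 0 + wild (y t 1))
      ((hyi 0).add (continuous_wild.comp (hyi 1))) ?_ s t
    have hle := eVariationOn_sub_le (fun t => (wildHomeo m (y t)) (Fin.last (m + 1)))
      (fun t => y t (Fin.last (m + 1))) univ
    have heq : (fun t => (wildHomeo m (y t)) (Fin.last (m + 1)) - y t (Fin.last (m + 1))) =
        fun t => wild (y t 0 + wild (y t 1)) := by
      funext t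
      rw [wildHomeo_apply_last]
      ring
    rw [heq] at hle
    exact ne_top_of_le_ne_top (ENNReal.add_ne_top.mpr ⟨h2 _, h1 _⟩) hle
  ext i
  by_cases hi : (i : ℕ) = 0
  · have hi0 : i = 0 := Fin.ext hi
    subst hi0
    have h := hzero s t
    rw [hpos 1 (by simp) s t] at h
    linarith
  · exact hpos i (Nat.pos_of_ne_zero hi) s t

end Pool.Agent.H115R3.Sponge
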