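import Mathlib

/-!
A continuous function on the line with infinite variation on every nontrivial interval, and the
fact that its composition with a nonconstant continuous function has infinite variation.
-/

open Set Filter Topology
open scoped ENNReal

noncomputable section
namespace Pool.Agent.H115R3.Sponge

/-- A Weierstrass type series. -/
def wild (x : ℝ) : ℝ := ∑' k : ℕ, (1 / 2 : ℝ) ^ k * Real.cos (2 * Real.pi * 8 ^ k * x)

lemma abs_term_le (k : ℕ) (x : ℝ) :
    |(1 / 2 : ℝ) ^ k * Real.cos (2 * Real.pi * 8 ^ k * x)| ≤ (1 / 2 : ℝ) ^ k := by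
  rw [abs_mul, abs_of_nonneg (by positivity : (0 : ℝ) ≤ (1 / 2 : ℝ) ^ k)]
  exact mul_le_of_le_one_right (by positivity) (Real.abs_cos_le_one _)

lemma summable_term (x : ℝ) :
    Summable fun k : ℕ => (1 / 2 : ℝ) ^ k * Real.cos (2 * Real.pi * 8 ^ k * x) :=
  Summable.of_norm_bounded (g := fun k : ℕ => (1 / 2 : ℝ) ^ k)
    (summable_geometric_of_lt_one (by norm_num) (by norm_num))
    (fun k => by rw [Real.norm_eq_abs]; exact abs_term_le k x)

lemma continuous_wild : Continuous wild := by
  unfold wild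
  refine continuous_tsum (fun k => by fun_prop)
    (summable_geometric_of_lt_one (r := (1 / 2 : ℝ)) (by norm_num) (by norm_num)) ?_
  intro k x
  simpa [Real.norm_eq_abs] using abs_term_le k x

lemma abs_wild_le (x : ℝ) : |wild x| ≤ 2 := by
  have h := tsum_of_norm_bounded (f := fun k : ℕ =>
    (1 / 2 : ℝ) ^ k * Real.cos (2 * Real.pi * 8 ^ k * x)) (a := 2)
    hasSum_geometric_two (fun k => by simpa [Real.norm_eq_abs] using abs_term_le k x)
  simpa [wild, Real.norm_eq_abs] using h

lemma wild_neg (x : ℝ) : wild (-x) = wild x := by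
  unfold wild
  congr 1
  ext k
  rw [show 2 * Real.pi * 8 ^ k * -x = -(2 * Real.pi * 8 ^ k * x) by ring, Real.cos_neg]

lemma cos_pi_int_ne (j : ℤ) :
    |Real.cos (Real.pi * (j + 1)) - Real.cos (Real.pi * j)| = 2 := by
  rw [show Real.pi * ((j : ℝ) + 1) = Real.pi * j + Real.pi by ring, Real.cos_add_pi]
  rw [show -Real.cos (Real.pi * j) - Real.cos (Real.pi * j) = -(2 * Real.cos (Real.pi * j)) by ring,
    abs_neg, abs_mul, mul_comm Real.pi, Real.abs_cos_int_mul_pi]
  norm_num

/-- Consecutive points of the grid with mesh `1 / (2 * 8 ^ n)`. -/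
lemma step (n : ℕ) (j : ℤ) :
    (1 / 2 : ℝ) ^ n / 2 ≤
      |wild (((j : ℝ) + 1) / (2 * 8 ^ n)) - wild ((j : ℝ) / (2 * 8 ^ n))| := by
  set d : ℕ → ℝ := fun k => (1 / 2 : ℝ) ^ k * Real.cos (2 * Real.pi * 8 ^ k *
    (((j : ℝ) + 1) / (2 * 8 ^ n))) - (1 / 2 : ℝ) ^ k * Real.cos (2 * Real.pi * 8 ^ k *
    ((j : ℝ) / (2 * 8 ^ n))) with hd
  have h8 : (8 : ℝ) ^ n ≠ 0 := by positivity
  have hsub : wild (((j : ℝ) + 1) / (2 * 8 ^ n)) - wild ((j : ℝ) / (2 * 8 ^ n)) = ∑' k, d k := by
    unfold wild
    rw [← (summable_term _).tsum_sub (summable_term _)]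
  have hzero : ∀ k ∉ Finset.range (n + 1), d k = 0 := by
    intro k hk
    simp only [Finset.mem_range, not_lt] at hk
    obtain ⟨m, rfl⟩ := Nat.exists_eq_add_of_le hk
    have e1 : ∀ i : ℤ, 2 * Real.pi * 8 ^ (n + 1 + m) * ((i : ℝ) / (2 * 8 ^ n))
        = ((4 * 8 ^ m * i : ℤ) : ℝ) * (2 * Real.pi) := by
      intro i
      push_cast
      field_simp
      ring
    have e2 := e1 (j + 1)
    have e3 := e1 j
    push_cast at e2 e3
    simp only [hd]
    rw [e2, e3]
    have c1 : Real.cos (4 * 8 ^ m * ((j : ℝ) + 1) * (2 * Real.pi)) = 1 := by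
      have := Real.cos_int_mul_two_pi (4 * 8 ^ m * (j + 1))
      push_cast at this
      exact this
    have c2 : Real.cos (4 * 8 ^ m * (j : ℝ) * (2 * Real.pi)) = 1 := by
      have := Real.cos_int_mul_two_pi (4 * 8 ^ m * j)
      push_cast at this
      exact this
    rw [c1, c2]
    ring
  rw [hsub, tsum_eq_sum hzero, Finset.sum_range_succ]
  have hn : |d n| = 2 * (1 / 2 : ℝ) ^ n := by
    have e1 : 2 * Real.pi * 8 ^ n * (((j : ℝ) + 1) / (2 * 8 ^ n)) = Real.pi * (j + 1) := by
      field_simp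
    have e2 : 2 * Real.pi * 8 ^ n * ((j : ℝ) / (2 * 8 ^ n)) = Real.pi * j := by
      field_simp
    simp only [hd]
    rw [e1, e2, ← mul_sub, abs_mul, cos_pi_int_ne, abs_of_nonneg (by positivity)]
    ring
  have hk : ∀ k ∈ Finset.range n, |d k| ≤ Real.pi * 4 ^ k / 8 ^ n := by
    intro k _
    simp only [hd]
    rw [← mul_sub, abs_mul, abs_of_nonneg (by positivity : (0 : ℝ) ≤ (1 / 2 : ℝ) ^ k)]
    have hl : |Real.cos (2 * Real.pi * 8 ^ k * (((j : ℝ) + 1) / (2 * 8 ^ n)))
        - Real.cos (2 * Real.pi * 8 ^ k * ((j : ℝ) / (2 * 8 ^ n)))| ≤ Real.pi * 8 ^ k / 8 ^ n := by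
      refine (Real.abs_cos_sub_cos_le _ _).trans (le_of_eq ?_)
      rw [show 2 * Real.pi * 8 ^ k * (((j : ℝ) + 1) / (2 * 8 ^ n))
        - 2 * Real.pi * 8 ^ k * ((j : ℝ) / (2 * 8 ^ n)) = Real.pi * 8 ^ k / 8 ^ n by
          field_simp; ring]
      exact abs_of_nonneg (by positivity)
    calc (1 / 2 : ℝ) ^ k * _ ≤ (1 / 2 : ℝ) ^ k * (Real.pi * 8 ^ k / 8 ^ n) :=
          mul_le_mul_of_nonneg_left hl (by positivity)
      _ = Real.pi * 4 ^ k / 8 ^ n := by
          rw [show (4 : ℝ) ^ k = (1 / 2) ^ k * 8 ^ k by rw [← mul_pow]; norm_num]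
          ring
  have hsum : |∑ k ∈ Finset.range n, d k| ≤ 3 / 2 * (1 / 2 : ℝ) ^ n := by
    refine (Finset.abs_sum_le_sum_abs _ _).trans ((Finset.sum_le_sum hk).trans ?_)
    rw [← Finset.sum_div, ← Finset.mul_sum, geom_sum_eq (by norm_num)]
    rw [div_le_iff₀ (by positivity)]
    rw [show 3 / 2 * (1 / 2 : ℝ) ^ n * 8 ^ n = 3 / 2 * 4 ^ n by
      rw [mul_assoc, ← mul_pow]; norm_num]
    have hpi := Real.pi_lt_d2
    have hpos := Real.pi_pos
    have h4 : (1 : ℝ) ≤ 4 ^ n := one_le_pow₀ (by norm_num)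
    nlinarith
  have habs := abs_sub_abs_le_abs_sub (d n) (-(∑ k ∈ Finset.range n, d k))
  rw [sub_neg_eq_add, add_comm (d n), abs_neg, hn] at habs
  have hp : (0 : ℝ) < (1 / 2 : ℝ) ^ n := by positivity
  linarith

/-- The function `wild` has infinite variation on every nontrivial interval. -/
theorem eVariationOn_wild {a b : ℝ} (hab : a < b) : eVariationOn wild (Icc a b) = ⊤ := by
  have key : ∀ n : ℕ, ENNReal.ofReal ((b - a) * 4 ^ n / 2 - 1) ≤ eVariationOn wild (Icc a b) := by
    intro n
    set N : ℝ := 2 * 8 ^ n with hN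
    have hNpos : 0 < N := by positivity
    set p : ℤ := ⌈a * N⌉ with hp
    set q : ℤ := ⌊b * N⌋ with hq
    rcases le_or_gt q p with hqp | hpq
    · -- the interval is short
      have h1 : (p : ℝ) < a * N + 1 := Int.ceil_lt_add_one _
      have h2 : b * N < q + 1 := Int.lt_floor_add_one _
      have h3 : (q : ℝ) ≤ p := by exact_mod_cast hqp
      have h4 : (b - a) * N < 2 := by linarith
      have h5 : (b - a) * 4 ^ n / 2 - 1 ≤ 0 := by
        have h6 : (4 : ℝ) ^ n ≤ 8 ^ n := pow_le_pow_left₀ (by norm_num) (by norm_num) n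
        have h7 : (b - a) * 4 ^ n ≤ (b - a) * 8 ^ n :=
          mul_le_mul_of_nonneg_left h6 (by linarith)
        rw [hN] at h4
        nlinarith
      rw [ENNReal.ofReal_of_nonpos h5]
      exact bot_le
    · set m : ℕ := (q - p).toNat with hm
      have hmz : (m : ℤ) = q - p := Int.toNat_of_nonneg (by omega)
      have hmr : (m : ℝ) = (q : ℝ) - p := by exact_mod_cast hmz
      set u : ℕ → ℝ := fun i => ((p : ℝ) + i) / N with hu
      have hmono : MonotoneOn u (Iic m) := by
        intro i _ k _ hik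
        simp only [hu]
        have : (i : ℝ) ≤ k := by exact_mod_cast hik
        gcongr
      have hmem : ∀ i ≤ m, u i ∈ Icc a b := by
        intro i hi
        simp only [hu]
        have h1 : a * N ≤ p := Int.le_ceil _
        have h2 : (q : ℝ) ≤ b * N := Int.floor_le _
        have h3 : (i : ℝ) ≤ m := by exact_mod_cast hi
        constructor
        · rw [le_div_iff₀ hNpos]
          have : (0 : ℝ) ≤ i := Nat.cast_nonneg i
          linarith
        · rw [div_le_iff₀ hNpos]
          linarith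
      have hvar := eVariationOn.sum_le_of_monotoneOn_Iic (f := wild) (s := Icc a b) (n := m)
        hmono hmem
      refine le_trans ?_ hvar
      have hterm : ∀ i ∈ Finset.range m, ENNReal.ofReal ((1 / 2 : ℝ) ^ n / 2) ≤
          edist (wild (u (i + 1))) (wild (u i)) := by
        intro i _
        rw [edist_dist, Real.dist_eq]
        apply ENNReal.ofReal_le_ofReal
        have hs := step n (p + i)
        simp only [hu, hN]
        push_cast at hs ⊢
        rw [← add_assoc]
        exact hs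
      refine le_trans ?_ (Finset.sum_le_sum hterm)
      rw [Finset.sum_const, Finset.card_range, nsmul_eq_mul, ← ENNReal.ofReal_natCast,
        ← ENNReal.ofReal_mul (by positivity)]
      apply ENNReal.ofReal_le_ofReal
      have h1 : (p : ℝ) < a * N + 1 := Int.ceil_lt_add_one _
      have h2 : b * N < q + 1 := Int.lt_floor_add_one _
      have h3 : (b - a) * N - 2 ≤ m := by rw [hmr]; linarith
      have hp2 : (0 : ℝ) < (1 / 2 : ℝ) ^ n / 2 := by positivity
      have h4 : ((b - a) * N - 2) * ((1 / 2 : ℝ) ^ n / 2) ≤ m * ((1 / 2 : ℝ) ^ n / 2) :=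
        mul_le_mul_of_nonneg_right h3 hp2.le
      refine le_trans ?_ h4
      have h5 : (4 : ℝ) ^ n = 8 ^ n * (1 / 2) ^ n := by rw [← mul_pow]; norm_num
      have h6 : ((1 / 2 : ℝ)) ^ n ≤ 1 := pow_le_one₀ (by norm_num) (by norm_num)
      have h7 : ((b - a) * N - 2) * ((1 / 2 : ℝ) ^ n / 2) = (b - a) * 4 ^ n - (1 / 2) ^ n := by
        rw [hN, h5]; ring
      rw [h7]
      have h8 : 0 ≤ (b - a) * 4 ^ n := by
        have : 0 < b - a := by linarith
        positivity
      linarith
  have htend : Tendsto (fun n : ℕ => ENNReal.ofReal ((b - a) * 4 ^ n / 2 - 1)) atTop (𝓝 ⊤) := by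
    apply ENNReal.tendsto_ofReal_atTop.comp
    apply tendsto_atTop_add_const_right
    have h4 : Tendsto (fun n : ℕ => (4 : ℝ) ^ n) atTop atTop :=
      tendsto_pow_atTop_atTop_of_one_lt (by norm_num)
    have : Tendsto (fun n : ℕ => ((b - a) / 2) * (4 : ℝ) ^ n) atTop atTop :=
      h4.const_mul_atTop (by linarith)
    refine this.congr (fun n => by ring)
  exact top_le_iff.mp (le_of_tendsto' htend key)

/-- First passage times: the variation of `φ ∘ X` is at least the variation of `φ` between the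
end values. -/
lemma variation_le_comp (φ : ℝ → ℝ) {X : ℝ → ℝ} (hX : Continuous X) {s t : ℝ} (hst : s ≤ t) :
    eVariationOn φ (Icc (X s) (X t)) ≤ eVariationOn (φ ∘ X) (Icc s t) := by
  classical
  have hleast : ∀ u ∈ Icc (X s) (X t), ∃ τ, IsLeast {τ | τ ∈ Icc s t ∧ u ≤ X τ} τ := by
    intro u hu
    apply IsCompact.exists_isLeast
    · have : {τ | τ ∈ Icc s t ∧ u ≤ X τ} = Icc s t ∩ {τ | u ≤ X τ} := rfl
      rw [this]
      exact isCompact_Icc.inter_right (isClosed_le continuous_const hX)
    · exact ⟨t, right_mem_Icc.mpr hst, hu.2⟩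
  choose! g hg using hleast
  have hXg : ∀ u ∈ Icc (X s) (X t), X (g u) = u := by
    intro u hu
    obtain ⟨⟨hgI, hge⟩, hlb⟩ := hg u hu
    by_contra hne
    have hlt : u < X (g u) := lt_of_le_of_ne hge (Ne.symm hne)
    have hiv := intermediate_value_Icc hgI.1 hX.continuousOn (show u ∈ Icc (X s) (X (g u)) from
      ⟨hu.1, hlt.le⟩)
    obtain ⟨τ, hτ, hτu⟩ := hiv
    have h1 : g u ≤ τ := hlb ⟨⟨hτ.1, hτ.2.trans hgI.2⟩, hτu.ge⟩
    have h2 : τ = g u := le_antisymm hτ.2 h1
    rw [h2] at hτu
    exact hne hτu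
  have hmono : MonotoneOn g (Icc (X s) (X t)) := by
    intro u hu v hv huv
    exact (hg u hu).2 ⟨(hg v hv).1.1, huv.trans (hg v hv).1.2⟩
  have hmaps : MapsTo g (Icc (X s) (X t)) (Icc s t) := fun u hu => (hg u hu).1.1
  calc eVariationOn φ (Icc (X s) (X t)) = eVariationOn ((φ ∘ X) ∘ g) (Icc (X s) (X t)) := by
        apply eVariationOn.congr
        intro u hu
        simp [hXg u hu]
    _ ≤ eVariationOn (φ ∘ X) (Icc s t) := eVariationOn.comp_le_of_monotoneOn _ _ hmono hmaps

/-- If `wild ∘ x` has bounded variation, then the continuous function `x` is constant. -/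
theorem const_of_wild_comp {x : unitInterval → ℝ} (hx : Continuous x)
    (h : eVariationOn (fun t => wild (x t)) univ ≠ ⊤) (s t : unitInterval) : x s = x t := by
  -- extend to the line
  have main : ∀ y : unitInterval → ℝ, Continuous y →
      eVariationOn (fun t => wild (y t)) univ ≠ ⊤ → ∀ s t : unitInterval, s ≤ t → ¬ y s < y t := by
    intro y hy hv s t hst hlt
    set X : ℝ → ℝ := fun τ => y (projIcc 0 1 zero_le_one τ) with hXdef
    have hXc : Continuous X := hy.comp continuous_projIcc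
    have h1 := variation_le_comp wild hXc (s := (s : ℝ)) (t := (t : ℝ)) hst
    have hXs : X s = y s := by simp [hXdef]
    have hXt : X t = y t := by simp [hXdef]
    rw [hXs, hXt, eVariationOn_wild hlt, top_le_iff] at h1
    apply hv
    rw [← top_le_iff, ← h1]
    have h2 : wild ∘ X = (fun t => wild (y t)) ∘ (projIcc 0 1 zero_le_one) := rfl
    rw [h2]
    exact eVariationOn.comp_le_of_monotoneOn _ _ ((monotone_projIcc _).monotoneOn _)
      (mapsTo_univ _ _)
  have key : ∀ s t : unitInterval, s ≤ t → x s = x t := by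
    intro s t hst
    apply le_antisymm
    · by_contra hcon
      push Not at hcon
      refine main (fun τ => -x τ) hx.neg ?_ s t hst (by simpa using hcon)
      simpa [wild_neg] using h
    · by_contra hcon
      push Not at hcon
      exact main x hx h s t hst hcon
  rcases le_total s t with hst | hst
  · exact key s t hst
  · exact (key t s hst).symm

/-- The variation of a difference. -/
lemma eVariationOn_sub_le {α : Type*} [LinearOrder α] (f g : α → ℝ) (s : Set α) :
    eVariationOn (fun t => f t - g t) s ≤ eVariationOn f s + eVariationOn g s := by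
  apply iSup_le
  rintro ⟨n, u, hu, hs⟩
  simp only
  calc ∑ i ∈ Finset.range n, edist (f (u (i + 1)) - g (u (i + 1))) (f (u i) - g (u i))
      ≤ ∑ i ∈ Finset.range n,
          (edist (f (u (i + 1))) (f (u i)) + edist (g (u (i + 1))) (g (u i))) := by
        apply Finset.sum_le_sum
        intro i _
        rw [edist_dist, edist_dist, edist_dist, ← ENNReal.ofReal_add dist_nonneg dist_nonneg]
        exact ENNReal.ofReal_le_ofReal (dist_sub_sub_le _ _ _ _)
    _ = ∑ i ∈ Finset.range n, edist (f (u (i + 1))) (f (u i)) +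
          ∑ i ∈ Finset.range n, edist (g (u (i + 1))) (g (u i)) := Finset.sum_add_distrib
    _ ≤ _ := add_le_add (eVariationOn.sum_le hu hs) (eVariationOn.sum_le hu hs)

end Pool.Agent.H115R3.Sponge
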